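import Pool.Agent.H200P.Stm3

set_option autoImplicit false

/-! Job PK15 (ExpK) of project PK (helper200). -/

namespace Pool.Agent.Q195.PK

open Finset Pool.Agent Pool.Agent.H200P Pool.Agent.TH176.Nag Pool.Agent.TH603.Sur
open Pool.Agent.TH2.NU Pool.Agent.TH641.UM Pool.Agent.Y205.FW Pool.Agent.Y205.MD
open Pool.Agent.H200W Pool.Agent.H932R3

lemma HX_eq_TZ (d : ℕ) : (↑(HX 0 0 0 d) : Set (ℤ × ℤ)) = TZ d := by
  ext p
  rw [HX, Finset.coe_filter]
  simp only [Finset.mem_product, Finset.mem_Icc, TZ, Nat.cast_zero, sub_zero]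
  constructor
  · rintro ⟨⟨⟨h1, _⟩, h2, _⟩, h3, _⟩
    exact ⟨h1, h2, h3⟩
  · rintro ⟨h1, h2, h3⟩
    exact ⟨⟨⟨h1, by omega⟩, h2, by omega⟩, h3, by omega⟩

lemma two_choose_nat (m : ℕ) : 2 * (m + 1).choose 2 = m * (m + 1) := by
  rw [Nat.choose_two_right, Nat.add_sub_cancel]
  have : 2 ∣ (m + 1) * m := (Nat.even_mul_succ_self m).two_dvd.trans (by rw [mul_comm])
  rw [Nat.mul_div_cancel' this, mul_comm]

/-- from the corank to the expected dimension -/
lemma exp_of_crk {n d : ℕ} {w : Fin n → ℕ} (A : Finset (Fin n))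
    (h : crkM (HX 0 0 0 d) (A.val.map w + ((univ \ A).filter fun i => 1 ≤ w i).val.map w) ≤
      (HX 0 0 0 d).card - TH2.NU.condM
        (A.val.map w + ((univ \ A).filter fun i => 1 ≤ w i).val.map w)) : GenExp d w := by
  classical
  intro F _ _ P hPi
  set M : Multiset ℕ := A.val.map w + ((univ \ A).filter fun i => 1 ≤ w i).val.map w with hM
  set H := HX 0 0 0 d with hH
  obtain ⟨T, hTH, hTc, hTE⟩ := crk_spec H (vec M)
  have hc' : crk H (vec M) ≤ H.card - TH2.NU.condM M := h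
  have hMsum : ∀ t : ℕ → ℕ, (M.map t).sum = ∑ i ∈ A ∪ (univ \ A).filter (fun i => 1 ≤ w i),
      t (w i) := by
    intro t
    rw [Finset.sum_union (by
      rw [Finset.disjoint_left]
      intro i hi hi'
      rw [Finset.mem_filter, Finset.mem_sdiff] at hi'
      exact hi'.1.2 hi), hM, Multiset.map_add, Multiset.sum_add, Multiset.map_map,
      Multiset.map_map]
    rfl
  have hmemU : ∀ i, i ∈ A ∪ (univ \ A).filter (fun i => 1 ≤ w i) ↔ (i ∈ A ∨ 1 ≤ w i) := by
    intro i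
    rw [Finset.mem_union, Finset.mem_filter, Finset.mem_sdiff]
    have := Finset.mem_univ i
    tauto
  have hsum : ∀ t : ℕ → ℕ, ∑ p, t (vec M p) = ∑ i : {i : Fin n // i ∈ A ∨ 1 ≤ w i}, t (w i) := by
    intro t
    rw [sum_vec, hMsum]
    exact Finset.sum_subtype _ hmemU _
  obtain ⟨σ, hσ⟩ := exists_equiv_of_sum hsum
  have hE1 : Emp w (↑T : Set (ℤ × ℤ)) :=
    Emp_emb (fun p => (σ p).1) (Subtype.val_injective.comp σ.injective)
      (fun p => le_of_eq (hσ p)) hTE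
  have hcond : TH603.Sur.cond w = TH2.NU.condM M := by
    unfold TH603.Sur.cond TH2.NU.condM
    rw [hMsum fun a => (a + 1).choose 2]
    symm
    apply Finset.sum_subset (Finset.subset_univ _)
    intro i _ hi
    rw [hmemU] at hi
    push Not at hi
    have : w i = 0 := by omega
    rw [this]
    rfl
  have hne : ∀ Q : MvPolynomial (Fin n × Fin 2) ℚ, Q ≠ 0 →
      MvPolynomial.aeval (fun ij : Fin n × Fin 2 => P ij.1 ij.2) Q ≠ 0 := by
    intro Q hQ h0
    apply hQ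
    apply hPi
    rw [h0, map_zero]
  rcases le_or_gt (TH2.NU.condM M) H.card with h1 | h1
  · have h2 : TH603.Sur.cond w ≤ T.card := by
      rw [hcond]
      omega
    obtain ⟨T0, s1, s2⟩ := Finset.exists_subset_card_eq h2
    have h3 : Sur w (TZ d) := by
      refine ⟨T0, ?_, s2, hE1.mono (by exact_mod_cast s1)⟩
      rw [← HX_eq_TZ]
      exact_mod_cast s1.trans hTH
    obtain ⟨Q, hQ, hQ'⟩ := indep_open h3
    exact hQ' P (hne Q hQ) d le_rfl
  · have h2 : T = H := by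
      apply Finset.eq_of_subset_of_card_le hTH
      omega
    have h3 : Emp w (TZ d) := by
      rw [← HX_eq_TZ, ← hH, ← h2]
      exact hE1
    obtain ⟨Q, hQ, hQ'⟩ := full_open h3
    exact hQ' P (hne Q hQ) d le_rfl

theorem expK : S_ExpK := by
  classical
  intro hC hC2 n d w hP
  obtain ⟨A, η, m1, μ, s, hη, hη1, hμ, hd, hA1, hA2, hs, hineq, hvol, hlast⟩ := hP
  apply exp_of_crk A
  set K : Multiset ℕ := A.val.map w with hK
  set B := (univ \ A).filter (fun i => 1 ≤ w i) with hB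
  set W : Multiset ℕ := B.val.map w with hW
  set G : ℝ := 8192 * ((μ : ℝ) + 1) / η with hG
  have c1 : 8192 * ((μ : ℝ) + 1) ≤ η * G := by
    rw [hG, mul_div_cancel₀ _ hη.ne']
  have e1 : 16 * G = 2 ^ 17 * ((μ : ℝ) + 1) / η := by
    rw [hG]; ring
  have e2 : 116 * G ≤ 2 ^ 20 * ((μ : ℝ) + 1) / η := by
    have h1 : 0 ≤ ((μ : ℝ) + 1) / η := by positivity
    have h2 : 116 * G = 950272 * (((μ : ℝ) + 1) / η) := by rw [hG]; ring
    have h3 : 2 ^ 20 * ((μ : ℝ) + 1) / η = 1048576 * (((μ : ℝ) + 1) / η) := by ring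
    rw [h2, h3]
    linarith
  have c2 : ∀ m ∈ K, m ≤ m1 := by
    intro m hm
    rw [hK, Multiset.mem_map] at hm
    obtain ⟨i, hi, rfl⟩ := hm
    exact hA1 i hi
  have hd0 : (0 : ℝ) ≤ d := Nat.cast_nonneg _
  have c3 : (K.map fun m : ℕ => ((m : ℝ) + 16 * G) ^ 2).sum + (7 * m1 + 116 * G) * d ≤
      (d : ℝ) ^ 2 := by
    have h1 : (K.map fun m : ℕ => ((m : ℝ) + 16 * G) ^ 2).sum =
        ∑ i ∈ A, ((w i : ℝ) + 2 ^ 17 * (μ + 1) / η) ^ 2 := by
      rw [hK, Multiset.map_map, e1]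
      rfl
    rw [h1]
    have h2 : (7 * (m1 : ℝ) + 116 * G) * d ≤ (7 * m1 + 2 ^ 20 * (μ + 1) / η) * d :=
      mul_le_mul_of_nonneg_right (by linarith) hd0
    linarith
  have c4 : (K.map fun m : ℕ => (m : ℝ) * (m + 1)).sum ≤ (1 - η) * (d : ℝ) ^ 2 := by
    have h1 : (K.map fun m : ℕ => (m : ℝ) * (m + 1)).sum = ∑ i ∈ A, (w i : ℝ) * (w i + 1) := by
      rw [hK, Multiset.map_map]
      rfl
    rw [h1]
    exact hvol
  have c5 : ∀ v ∈ W, 1 ≤ v ∧ v ≤ μ := by
    intro v hv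
    rw [hW, Multiset.mem_map] at hv
    obtain ⟨i, hi, rfl⟩ := hv
    have hi' : i ∈ B := hi
    rw [hB, Finset.mem_filter, Finset.mem_sdiff] at hi'
    exact ⟨hi'.2, hA2 i hi'.1.2⟩
  have c6 : W.toFinset.card ≤ s := by
    refine le_trans (Finset.card_le_card ?_) hs
    intro x hx
    rw [Multiset.mem_toFinset, hW, Multiset.mem_map] at hx
    obtain ⟨i, hi, rfl⟩ := hx
    have hi' : i ∈ B := hi
    rw [hB, Finset.mem_filter] at hi'
    exact Finset.mem_image_of_mem _ hi'.1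
  rcases hlast with hl | hl
  · apply hC K W hη hη1 c1 hd c2 c3 c4 hμ c5
    have h1 : (W.map fun v => v ^ 2).sum = ∑ i ∈ univ \ A, w i ^ 2 := by
      have h2 : (W.map fun v => v ^ 2).sum = ∑ i ∈ B, w i ^ 2 := by
        rw [hW, Multiset.map_map]
        rfl
      rw [h2, hB]
      apply Finset.sum_filter_of_ne
      intro i _ hi
      by_contra h3
      have : w i = 0 := by omega
      rw [this] at hi
      exact hi rfl
    rw [h1]
    refine le_trans ?_ hl
    exact Nat.mul_le_mul_right _ (Nat.mul_le_mul_left _ c6)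
  · apply hC2 K W hη hη1 c1 hd c2 c3 c4 hμ c5
    have h1 : 2 * TH2.NU.condM K = ∑ i ∈ A, w i * (w i + 1) := by
      unfold TH2.NU.condM
      have h2 : (K.map fun a => (a + 1).choose 2).sum = ∑ i ∈ A, (w i + 1).choose 2 := by
        rw [hK, Multiset.map_map]
        rfl
      rw [h2, Finset.mul_sum]
      exact Finset.sum_congr rfl fun i _ => two_choose_nat (w i)
    have h3 := p_card (M1 := 0) (M2 := 0) (M3 := 0) (d := d) le_rfl le_rfl (by omega)
    have h4 : 2 ^ 29 * (W.toFinset.card + 1) * μ ^ 2 ≤ 2 ^ 29 * (s + 1) * μ ^ 2 :=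
      Nat.mul_le_mul_right _ (Nat.mul_le_mul_left _ (by omega))
    have h5 : 2 ^ 30 * (s + 1) * μ ^ 2 = 2 * (2 ^ 29 * (s + 1) * μ ^ 2) := by ring
    omega

end Pool.Agent.Q195.PK
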