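import Pool.Agent.H200P.Stm3
import Pool.Agent.TH603.Sur.Uni

set_option autoImplicit false

/-! Job PK17 (MainC) of project PK (helper200). -/

namespace Pool.Agent.Q195.PK

open Finset Pool.Agent.H200P Pool.Agent.H932R3

lemma remove_points {ι : Type} [DecidableEq ι] (f : ι → ℝ) (t B : ℝ) (hB : 0 ≤ B)
    (ht : ∀ i, f i ≤ t) : ∀ S : Finset ι, B - t < ∑ i ∈ S, f i →
    ∃ S' ⊆ S, B - t < ∑ i ∈ S', f i ∧ ∑ i ∈ S', f i ≤ B := by
  intro S
  induction S using Finset.induction_on with
  | empty =>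
    intro h
    refine ⟨∅, Finset.Subset.refl _, h, ?_⟩
    simpa using hB
  | insert a S ha ih =>
    intro h
    by_cases h1 : ∑ i ∈ insert a S, f i ≤ B
    · exact ⟨insert a S, Finset.Subset.refl _, h, h1⟩
    · push Not at h1
      rw [Finset.sum_insert ha] at h1
      have h2 := ht a
      obtain ⟨S', h3, h4, h5⟩ := ih (by linarith)
      exact ⟨S', h3.trans (Finset.subset_insert _ _), h4, h5⟩

lemma expDim_zero {K : Type} [Field K] {n : ℕ} {w : Fin n → ℕ} (hw : ∀ i, w i = 0)
    (P : Fin n → Fin 2 → K) (d : ℕ) : ExpDim K w P d := by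
  unfold ExpDim
  have h1 : (⨅ i : Fin n,
      (Ideal.span
        ({MvPolynomial.X 0 - MvPolynomial.C (P i 0) * MvPolynomial.X 2,
          MvPolynomial.X 1 - MvPolynomial.C (P i 1) * MvPolynomial.X 2} :
          Set (MvPolynomial (Fin 3) K))) ^ (w i)) = ⊤ := by
    rw [eq_top_iff]
    apply le_iInf
    intro i
    rw [hw i, pow_zero, Ideal.one_eq_top]
  rw [h1]
  have h2 : Submodule.restrictScalars K (⊤ : Ideal (MvPolynomial (Fin 3) K)) = ⊤ := rfl
  rw [h2, inf_top_eq, Pool.Agent.TH603.Sur.finrank_forms]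
  have h3 : ∑ i, Nat.choose (w i + 1) 2 = 0 := by
    apply Finset.sum_eq_zero
    intro i _
    rw [hw i]
    rfl
  rw [h3, Nat.sub_zero]

lemma expDim_mono {K : Type} [Field K] {n : ℕ} {w w' : Fin n → ℕ} (hw : ∀ i, w' i ≤ w i)
    (P : Fin n → Fin 2 → K) (d : ℕ) (h : ExpDim K w' P d)
    (h2 : (d + 2).choose 2 ≤ ∑ i, (w' i + 1).choose 2) : ExpDim K w P d := by
  unfold ExpDim at h ⊢
  rw [Nat.sub_eq_zero_of_le h2] at h
  have h3 : (d + 2).choose 2 ≤ ∑ i, (w i + 1).choose 2 := h2.trans
    (Finset.sum_le_sum fun i _ => Nat.choose_le_choose 2 (by have := hw i; omega))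
  rw [Nat.sub_eq_zero_of_le h3]
  have hle : (MvPolynomial.homogeneousSubmodule (Fin 3) K d ⊓
      Submodule.restrictScalars K
        (⨅ i : Fin n,
          (Ideal.span
            ({MvPolynomial.X 0 - MvPolynomial.C (P i 0) * MvPolynomial.X 2,
              MvPolynomial.X 1 - MvPolynomial.C (P i 1) * MvPolynomial.X 2} :
              Set (MvPolynomial (Fin 3) K))) ^ (w i))) ≤
      (MvPolynomial.homogeneousSubmodule (Fin 3) K d ⊓
      Submodule.restrictScalars K
        (⨅ i : Fin n,
          (Ideal.span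
            ({MvPolynomial.X 0 - MvPolynomial.C (P i 0) * MvPolynomial.X 2,
              MvPolynomial.X 1 - MvPolynomial.C (P i 1) * MvPolynomial.X 2} :
              Set (MvPolynomial (Fin 3) K))) ^ (w' i))) := by
    apply inf_le_inf_left
    intro x hx
    rw [Submodule.restrictScalars_mem] at hx ⊢
    have : (⨅ i : Fin n,
          (Ideal.span
            ({MvPolynomial.X 0 - MvPolynomial.C (P i 0) * MvPolynomial.X 2,
              MvPolynomial.X 1 - MvPolynomial.C (P i 1) * MvPolynomial.X 2} :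
              Set (MvPolynomial (Fin 3) K))) ^ (w i)) ≤ (⨅ i : Fin n,
          (Ideal.span
            ({MvPolynomial.X 0 - MvPolynomial.C (P i 0) * MvPolynomial.X 2,
              MvPolynomial.X 1 - MvPolynomial.C (P i 1) * MvPolynomial.X 2} :
              Set (MvPolynomial (Fin 3) K))) ^ (w' i)) :=
      iInf_mono fun i => Ideal.pow_le_pow_right (hw i)
    exact this hx
  have hfin : Module.Finite K ↥(MvPolynomial.homogeneousSubmodule (Fin 3) K d) :=
    Module.Finite.iff_fg.2 (MvPolynomial.homogeneousSubmodule_fg _ _ d)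
  have hfin2 : Module.Finite K ↥(MvPolynomial.homogeneousSubmodule (Fin 3) K d ⊓
      Submodule.restrictScalars K
        (⨅ i : Fin n,
          (Ideal.span
            ({MvPolynomial.X 0 - MvPolynomial.C (P i 0) * MvPolynomial.X 2,
              MvPolynomial.X 1 - MvPolynomial.C (P i 1) * MvPolynomial.X 2} :
              Set (MvPolynomial (Fin 3) K))) ^ (w' i))) :=
    Submodule.finiteDimensional_of_le
      (S₂ := MvPolynomial.homogeneousSubmodule (Fin 3) K d) inf_le_left
  have h5 := Submodule.finrank_mono hle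
  omega

lemma two_choose (m : ℕ) : ((2 * (m + 1).choose 2 : ℕ) : ℝ) = (m : ℝ) * (m + 1) := by
  have h := Nat.triangle_succ m
  have h1 : 2 * (m + 1).choose 2 = (m + 1) * m := by
    rw [Nat.choose_two_right, Nat.add_sub_cancel]
    have : 2 ∣ (m + 1) * m := (Nat.even_mul_succ_self m).two_dvd.trans (by rw [mul_comm])
    exact Nat.mul_div_cancel' this
  rw [h1]
  push_cast
  ring

theorem mainC : S_MainC := by
  intro hS hP ε hε
  set δ : ℝ := min ε 1 with hδ
  have hδ0 : 0 < δ := lt_min hε one_pos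
  have hδ1 : δ ≤ 1 := min_le_right _ _
  have hδε : δ ≤ ε := min_le_left _ _
  obtain ⟨c', hc', hmain⟩ := hS (δ / 4) (by positivity)
  set c : ℝ := min (c' / 2) (min (δ / 20) (1 / 2)) with hc
  have hc0 : 0 < c := by
    rw [hc]
    apply lt_min (by positivity)
    apply lt_min (by positivity) (by norm_num)
  have hcc' : c ≤ c' / 2 := min_le_left _ _
  have hcδ : c ≤ δ / 20 := (min_le_right _ _).trans (min_le_left _ _)
  have hc2 : c ≤ 1 / 2 := (min_le_right _ _).trans (min_le_right _ _)
  refine ⟨c, hc0, ?_⟩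
  intro n d s μ w hs hμ hw hcard hsμ hcase K _ _ P hPi
  by_cases hall : ∀ i, w i = 0
  · exact expDim_zero hall P d
  have hd2 : (0 : ℝ) ≤ (d : ℝ) ^ 2 := by positivity
  have hcd : 1 ≤ c * d := by
    push Not at hall
    obtain ⟨i0, hi0⟩ := hall
    have : (1 : ℝ) ≤ w i0 := by exact_mod_cast Nat.pos_of_ne_zero hi0
    exact this.trans (hw i0)
  have hd0 : (0 : ℝ) < d := by
    by_contra h
    push Not at h
    have : c * (d : ℝ) ≤ 0 := mul_nonpos_of_nonneg_of_nonpos hc0.le h
    linarith
  have hd20 : 20 ≤ δ * d := by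
    have : c * d ≤ δ / 20 * d := mul_le_mul_of_nonneg_right hcδ hd0.le
    linarith
  have hsd : (s : ℝ) * μ ^ 2 ≤ c' * (d : ℝ) ^ 2 := by
    refine hsμ.trans (mul_le_mul_of_nonneg_right (by linarith) hd2)
  have hwc' : ∀ i, (w i : ℝ) ≤ c' * d := fun i => (hw i).trans
    (mul_le_mul_of_nonneg_right (by linarith) hd0.le)
  -- the direct case
  have hdirect : ∑ i ∈ univ.filter (fun i => c * μ < (w i : ℝ)), (w i : ℝ) ^ 2 ≤
      (1 - δ / 4) * (d : ℝ) ^ 2 → ExpDim K w P d := by
    intro h
    rcases hmain w hs hμ hwc' hcard hsd (by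
      refine le_trans ?_ h
      apply Finset.sum_le_sum_of_subset_of_nonneg
      · intro i hi
        rw [Finset.mem_filter] at hi ⊢
        refine ⟨hi.1, lt_of_le_of_lt ?_ hi.2⟩
        exact mul_le_mul_of_nonneg_right (by linarith) hμ
      · intro i _ _
        positivity) with h1 | h1
    · exact expDim_zero h1 P d
    · exact hP h1 hPi
  rcases hcase with h | h
  · apply hdirect
    refine h.trans (mul_le_mul_of_nonneg_right ?_ hd2)
    linarith
  by_cases hbig : ∑ i ∈ univ.filter (fun i => c * μ < (w i : ℝ)), (w i : ℝ) ^ 2 ≤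
      (1 - δ / 4) * (d : ℝ) ^ 2
  · exact hdirect hbig
  push Not at hbig
  set S : Finset (Fin n) := univ.filter (fun i => c * μ < (w i : ℝ)) with hSdef
  have ht : ∀ i, (w i : ℝ) ^ 2 ≤ (c * d) ^ 2 := fun i =>
    pow_le_pow_left₀ (Nat.cast_nonneg _) (hw i) 2
  obtain ⟨S', hS'S, hS'1, hS'2⟩ := remove_points (fun i => (w i : ℝ) ^ 2) ((c * d) ^ 2)
    ((1 - δ / 4) * (d : ℝ) ^ 2) (mul_nonneg (by linarith) hd2) ht S (by
      have : 0 ≤ (c * (d : ℝ)) ^ 2 := by positivity
      linarith)
  set w' : Fin n → ℕ := fun i => if i ∈ S \ S' then 0 else w i with hw'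
  have hw'le : ∀ i, w' i ≤ w i := by
    intro i
    rw [hw']
    by_cases hi : i ∈ S \ S'
    · simp only [hi, if_true]; exact Nat.zero_le _
    · simp only [hi, if_false]; exact le_rfl
  have hw'ler : ∀ i, (w' i : ℝ) ≤ w i := fun i => by exact_mod_cast hw'le i
  have hcard' : ((univ.filter fun i => (w' i : ℝ) ≤ μ).image w').card ≤ 2 * s := by
    have hsub : (univ.filter fun i => (w' i : ℝ) ≤ μ).image w' ⊆
        insert 0 ((univ.filter fun i => (w i : ℝ) ≤ μ).image w) := by
      intro x hx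
      rw [Finset.mem_image] at hx
      obtain ⟨i, hi, rfl⟩ := hx
      rw [Finset.mem_insert]
      by_cases h1 : i ∈ S \ S'
      · left
        rw [hw']
        simp only [h1, if_true]
      · right
        have h2 : w' i = w i := by
          rw [hw']
          simp only [h1, if_false]
        rw [h2, Finset.mem_image]
        refine ⟨i, ?_, rfl⟩
        rw [Finset.mem_filter] at hi ⊢
        rw [h2] at hi
        exact hi
    have := (Finset.card_le_card hsub).trans (Finset.card_insert_le _ _)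
    omega
  have hsum' : ∑ i ∈ univ.filter (fun i => c' * μ < (w' i : ℝ)), (w' i : ℝ) ^ 2 ≤
      (1 - δ / 4) * (d : ℝ) ^ 2 := by
    refine le_trans ?_ hS'2
    have h1 : ∑ i ∈ univ.filter (fun i => c' * μ < (w' i : ℝ)), (w' i : ℝ) ^ 2 ≤
        ∑ i ∈ univ.filter (fun i => c' * μ < (w' i : ℝ)), (w i : ℝ) ^ 2 :=
      Finset.sum_le_sum fun i _ => pow_le_pow_left₀ (Nat.cast_nonneg _) (hw'ler i) 2
    refine h1.trans ?_
    apply Finset.sum_le_sum_of_subset_of_nonneg
    · intro i hi
      rw [Finset.mem_filter] at hi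
      have h2 : i ∉ S \ S' := by
        intro h3
        have h4 : w' i = 0 := by
          rw [hw']
          simp only [h3, if_true]
        rw [h4, Nat.cast_zero] at hi
        have : 0 ≤ c' * μ := mul_nonneg hc'.le hμ
        linarith [hi.2]
      have h3 : i ∈ S := by
        rw [hSdef, Finset.mem_filter]
        refine ⟨Finset.mem_univ _, ?_⟩
        have h4 := hi.2
        have h5 := hw'ler i
        have h6 : c * μ ≤ c' * μ := mul_le_mul_of_nonneg_right (by linarith) hμ
        linarith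
      by_contra h4
      exact h2 (Finset.mem_sdiff.mpr ⟨h3, h4⟩)
    · intro i _ _
      positivity
  have hlow : (1 + δ / 2) * (d : ℝ) ^ 2 ≤ ∑ i, (w' i : ℝ) ^ 2 := by
    have h1 : ∑ i ∈ univ.filter (fun i => (w i : ℝ) ≤ c * μ), (w i : ℝ) ^ 2 +
        ∑ i ∈ S', (w i : ℝ) ^ 2 ≤ ∑ i, (w' i : ℝ) ^ 2 := by
      have hdis : Disjoint (univ.filter (fun i => (w i : ℝ) ≤ c * μ)) S' := by
        rw [Finset.disjoint_left]
        intro i hi hi'
        have h2 := hS'S hi'
        rw [hSdef, Finset.mem_filter] at h2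
        rw [Finset.mem_filter] at hi
        linarith [hi.2, h2.2]
      rw [← Finset.sum_union hdis]
      have h2 : ∑ i ∈ univ.filter (fun i => (w i : ℝ) ≤ c * μ) ∪ S', (w i : ℝ) ^ 2 =
          ∑ i ∈ univ.filter (fun i => (w i : ℝ) ≤ c * μ) ∪ S', (w' i : ℝ) ^ 2 := by
        apply Finset.sum_congr rfl
        intro i hi
        have h3 : i ∉ S \ S' := by
          intro h4
          rw [Finset.mem_sdiff] at h4
          rcases Finset.mem_union.mp hi with h5 | h5
          · have h6 := h4.1
            rw [hSdef, Finset.mem_filter] at h6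
            rw [Finset.mem_filter] at h5
            linarith [h5.2, h6.2]
          · exact h4.2 h5
        have h4 : w' i = w i := by
          rw [hw']
          simp only [h3, if_false]
        rw [h4]
      rw [h2]
      apply Finset.sum_le_sum_of_subset_of_nonneg (Finset.subset_univ _)
      intro i _ _
      positivity
    have h2 : (c * (d : ℝ)) ^ 2 ≤ δ / 20 * (d : ℝ) ^ 2 := by
      rw [mul_pow]
      apply mul_le_mul_of_nonneg_right _ hd2
      have : c ^ 2 ≤ c := by
        rw [sq]
        have := mul_le_mul_of_nonneg_left hc2 hc0.le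
        linarith
      linarith
    have h3 : δ * (d : ℝ) ^ 2 ≤ ε * (d : ℝ) ^ 2 := mul_le_mul_of_nonneg_right hδε hd2
    have h4 : 0 ≤ δ * (d : ℝ) ^ 2 := by positivity
    nlinarith
  have hexp' : ExpDim K w' P d := by
    rcases hmain w' (by omega : 1 ≤ 2 * s) hμ (fun i => (hw'ler i).trans (hwc' i)) hcard' (by
      push_cast
      have := mul_le_mul_of_nonneg_right hcc' hd2
      nlinarith) hsum' with h1 | h1
    · exact expDim_zero h1 P d
    · exact hP h1 hPi
  apply expDim_mono hw'le P d hexp'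
  have hreal : ((2 * (d + 2).choose 2 : ℕ) : ℝ) ≤ ((2 * ∑ i, (w' i + 1).choose 2 : ℕ) : ℝ) := by
    have e1 : ((2 * (d + 2).choose 2 : ℕ) : ℝ) = ((d : ℝ) + 1) * (d + 2) := by
      have := two_choose (d + 1)
      rw [show d + 1 + 1 = d + 2 by ring] at this
      rw [this]
      push_cast
      ring
    have e2 : ((2 * ∑ i, (w' i + 1).choose 2 : ℕ) : ℝ) = ∑ i, (w' i : ℝ) * (w' i + 1) := by
      rw [Finset.mul_sum, Nat.cast_sum]
      apply Finset.sum_congr rfl
      intro i _
      exact two_choose (w' i)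
    rw [e1, e2]
    have e3 : ∑ i, (w' i : ℝ) ^ 2 ≤ ∑ i, (w' i : ℝ) * (w' i + 1) := by
      apply Finset.sum_le_sum
      intro i _
      have : (0 : ℝ) ≤ w' i := Nat.cast_nonneg _
      nlinarith
    have hd1 : (1 : ℝ) ≤ d := by nlinarith
    nlinarith
  have hnat : 2 * (d + 2).choose 2 ≤ 2 * ∑ i, (w' i + 1).choose 2 := by exact_mod_cast hreal
  omega

end Pool.Agent.Q195.PK
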