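import Pool.Agent.H200P.Stm

set_option autoImplicit false

/-! Jobs PK7 (Greedy) and PK8 (Pack) of project PK (helper200). -/

namespace Pool.Agent.Q195.PK

open Pool.Agent.H200P

lemma split_list {α : Type} (f : α → ℝ) : ∀ (P : List α) (B : ℝ), 0 ≤ B →
    ∃ T Q : List α, P = T ++ Q ∧ (T.map f).sum ≤ B ∧
      (Q = [] ∨ ∃ q Q', Q = q :: Q' ∧ B < (T.map f).sum + f q) := by
  intro P
  induction P with
  | nil =>
    intro B hB
    exact ⟨[], [], rfl, by simpa using hB, Or.inl rfl⟩
  | cons p P ih =>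
    intro B hB
    by_cases h : f p ≤ B
    · obtain ⟨T, Q, h1, h2, h3⟩ := ih (B - f p) (by linarith)
      refine ⟨p :: T, Q, by rw [h1]; rfl, ?_, ?_⟩
      · rw [List.map_cons, List.sum_cons]; linarith
      · rcases h3 with h3 | ⟨q, Q', h3, h4⟩
        · exact Or.inl h3
        · refine Or.inr ⟨q, Q', h3, ?_⟩
          rw [List.map_cons, List.sum_cons]; linarith
    · push Not at h
      refine ⟨[], p :: P, rfl, by simpa using hB, Or.inr ⟨p, P, rfl, ?_⟩⟩
      simpa using h

lemma sum_ge {α : Type} (f : α → ℝ) (c : ℝ) (hc : 0 ≤ c) : ∀ (T : List α), (∀ x ∈ T, c ≤ f x) →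
    c * (T.map f).sum ≤ (T.map fun x => f x ^ 2).sum := by
  intro T
  induction T with
  | nil => intro _; simp
  | cons x T ih =>
    intro h
    rw [List.map_cons, List.map_cons, List.sum_cons, List.sum_cons, mul_add]
    have h1 := ih fun y hy => h y (List.mem_cons_of_mem _ hy)
    have h2 := h x List.mem_cons_self
    have h3 : c * f x ≤ f x ^ 2 := by
      rw [sq]
      exact mul_le_mul_of_nonneg_right h2 (hc.trans h2)
    linarith

lemma sum_ht_le {G : ℝ} (hG : 1 ≤ G) (T : List (ℕ × ℕ)) :
    (T.map (ht G)).sum ≤ (T.map fun p => ((max p.1 p.2 : ℕ) : ℝ) + 16 * G).sum := by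
  apply List.sum_le_sum
  intro p _
  unfold ht
  rw [Nat.cast_max]
  linarith

theorem greedy : S_Greedy := by
  intro G b0 D0 hG P
  induction hn : P.length using Nat.strong_induction_on generalizing P with
  | _ n ih =>
  intro b D hD hD0 hb hb0 hsort hle hineq
  have hD4 : 4 * b0 + 4 * G ≤ D := by
    have h1 : 0 ≤ (P.map fun p => (((max p.1 p.2 : ℕ) : ℝ) + 16 * G) ^ 2).sum := by
      apply List.sum_nonneg
      intro x hx
      rw [List.mem_map] at hx
      obtain ⟨p, _, rfl⟩ := hx
      positivity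
    have h2 : 0 ≤ 2 * b * D0 := by
      have : 0 ≤ D0 := by linarith
      positivity
    have h3 : 2 * (2 * b0 + 2 * G) * D ≤ D * D := by nlinarith
    have := le_of_mul_le_mul_right h3 hD
    linarith
  cases P with
  | nil => exact ⟨[], by change 2 * G ≤ D; linarith, rfl⟩
  | cons p P =>
    set β : ℕ × ℕ → ℝ := fun p => ((max p.1 p.2 : ℕ) : ℝ) + 16 * G with hβ
    set w := β p with hw
    have hwb : w ≤ b := hle p List.mem_cons_self
    have hw0 : 16 * G ≤ w := by
      rw [hw, hβ]
      have : (0 : ℝ) ≤ ((max p.1 p.2 : ℕ) : ℝ) := Nat.cast_nonneg _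
      simp only
      linarith
    have hhead : ∀ q ∈ p :: P, β q ≤ w := by
      intro q hq
      rcases List.mem_cons.mp hq with h | h
      · rw [h]
      · have := (List.pairwise_cons.mp hsort).1 q h
        rw [hw, hβ]
        have : ((max q.1 q.2 : ℕ) : ℝ) ≤ ((max p.1 p.2 : ℕ) : ℝ) := by exact_mod_cast this
        simp only
        linarith
    obtain ⟨T, Q, hTQ, hT, hQ⟩ := split_list β (p :: P) (D - w - 2 * G) (by linarith)
    have hTne : T ≠ [] := by
      rintro rfl
      rw [List.nil_append] at hTQ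
      rcases hQ with h | ⟨q, Q', h1, h2⟩
      · rw [← hTQ] at h
        exact List.cons_ne_nil _ _ h
      · rw [← hTQ] at h1
        have := (List.cons.inj h1).1
        rw [← this] at h2
        simp only [List.map_nil, List.sum_nil, zero_add] at h2
        linarith
    have hTmem : ∀ q ∈ T, q ∈ p :: P := by
      intro q hq
      rw [hTQ]
      exact List.mem_append_left _ hq
    have hslab : 15 * G ≤ w - G ∧
        (∀ q ∈ T, (q.1 : ℝ) + 2 + 13 * G ≤ w - G ∧ (q.2 : ℝ) + 2 + 13 * G ≤ w - G) ∧
        w - G + G + (T.map (ht G)).sum + 2 * G ≤ D := by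
      refine ⟨by linarith, ?_, ?_⟩
      · intro q hq
        have h1 := hhead q (hTmem q hq)
        rw [hβ] at h1
        simp only at h1
        have h2 : (q.1 : ℝ) ≤ ((max q.1 q.2 : ℕ) : ℝ) := by exact_mod_cast le_max_left _ _
        have h3 : (q.2 : ℝ) ≤ ((max q.1 q.2 : ℕ) : ℝ) := by exact_mod_cast le_max_right _ _
        constructor <;> linarith
      · have := sum_ht_le hG T
        linarith
    rcases hQ with hQ | ⟨q, Q', hQ, hq⟩
    · refine ⟨[(w - G, T)], ?_, ?_⟩
      · refine ⟨hslab.1, hslab.2.1, hslab.2.2, ?_⟩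
        change 2 * G ≤ D - (w - G + G)
        linarith
      · rw [hTQ, hQ]
        simp
    · have hqmem : q ∈ p :: P := by
        rw [hTQ, hQ]
        exact List.mem_append_right _ List.mem_cons_self
      have hqw := hhead q hqmem
      have hq0 : 0 ≤ β q := by
        rw [hβ]
        positivity
      have hpair : (T ++ Q).Pairwise fun p q => max q.1 q.2 ≤ max p.1 p.2 := by
        rw [← hTQ]; exact hsort
      rw [List.pairwise_append] at hpair
      have hTq : ∀ x ∈ T, β q ≤ β x := by
        intro x hx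
        have := hpair.2.2 x hx q (by rw [hQ]; exact List.mem_cons_self)
        rw [hβ]
        have : ((max q.1 q.2 : ℕ) : ℝ) ≤ ((max x.1 x.2 : ℕ) : ℝ) := by exact_mod_cast this
        simp only
        linarith
      have hQq : ∀ x ∈ Q, β x ≤ β q := by
        intro x hx
        rw [hQ] at hx
        rcases List.mem_cons.mp hx with h | h
        · rw [h]
        · have h2 := hpair.2.1
          rw [hQ] at h2
          have := (List.pairwise_cons.mp h2).1 x h
          rw [hβ]
          have : ((max x.1 x.2 : ℕ) : ℝ) ≤ ((max q.1 q.2 : ℕ) : ℝ) := by exact_mod_cast this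
          simp only
          linarith
      have hlen : Q.length < n := by
        rw [← hn, hTQ, List.length_append]
        have : 0 < T.length := List.length_pos_iff.mpr hTne
        omega
      have hS := sum_ge β (β q) hq0 T hTq
      have hsum : ((p :: P).map fun p => (((max p.1 p.2 : ℕ) : ℝ) + 16 * G) ^ 2).sum
          = (T.map fun x => β x ^ 2).sum + (Q.map fun x => β x ^ 2).sum := by
        rw [hTQ, List.map_append, List.sum_append]
      rw [hsum] at hineq
      have key : 2 * (Q.map fun x => β x ^ 2).sum + 2 * β q * D0 +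
          2 * (2 * b0 + 2 * G) * (D - w) ≤ (D - w) ^ 2 := by
        set S := (T.map β).sum with hSdef
        have h1 : β q * (D - w - 2 * G) ≤ β q * (S + β q) :=
          mul_le_mul_of_nonneg_left hq.le hq0
        have h2 : w * D0 ≤ b * D0 := mul_le_mul_of_nonneg_right hwb (by linarith)
        have h3 : 0 ≤ (w - β q) * (D0 - D) := mul_nonneg (by linarith) (by linarith)
        have hwb0 : w ≤ b0 := hwb.trans hb0
        have hw00 : 0 ≤ w := by linarith
        have h4 : β q * w ≤ b0 * w := mul_le_mul_of_nonneg_right (hqw.trans hwb0) hw00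
        have h5 : β q * β q ≤ b0 * w := mul_le_mul (hqw.trans hwb0) hqw hq0 (by linarith)
        have h6 : G * β q ≤ G * w := mul_le_mul_of_nonneg_left hqw (by linarith)
        nlinarith [sq_nonneg w]
      obtain ⟨L, hL1, hL2⟩ := ih Q.length hlen Q rfl (β q) (D - w) (by linarith) (by linarith) hq0
        (hqw.trans (hwb.trans hb0)) hpair.2.1 hQq key
      refine ⟨(w - G, T) :: L, ?_, ?_⟩
      · refine ⟨hslab.1, hslab.2.1, hslab.2.2, ?_⟩
        have : D - (w - G + G) = D - w := by ring
        rw [this]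
        exact hL1
      · rw [List.map_cons, List.flatten_cons, hL2, hTQ]

/-- pairs of consecutive elements -/
def prs : List ℕ → List (ℕ × ℕ)
  | [] => []
  | [a] => [(a, 0)]
  | a :: b :: l => (a, b) :: prs l

lemma pm_cons (p : ℕ × ℕ) (B : List (ℕ × ℕ)) : pm (p :: B) = {p.1, p.2} + pm B := by
  unfold pm
  rw [List.map_cons, List.sum_cons]

lemma pm_append (A B : List (ℕ × ℕ)) : pm (A ++ B) = pm A + pm B := by
  unfold pm
  rw [List.map_append, List.sum_append]

lemma pmT_eq (L : List (ℝ × List (ℕ × ℕ))) : pmT L = pm (L.map Prod.snd).flatten := by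
  induction L with
  | nil => simp [pmT, pm]
  | cons x L ih =>
    rw [List.map_cons, List.flatten_cons, pm_append, ← ih]
    simp [pmT]

lemma pm_prs : ∀ l : List ℕ, pm (prs l) = (l : Multiset ℕ) ∨ pm (prs l) = (l : Multiset ℕ) + {0}
  | [] => by left; simp [prs, pm]
  | [a] => by right; simp [prs, pm]
  | a :: b :: l => by
    have ih := pm_prs l
    rw [prs, pm_cons]
    have e : ((a :: b :: l : List ℕ) : Multiset ℕ) = {a, b} + (l : Multiset ℕ) := by
      rw [← Multiset.cons_coe, ← Multiset.cons_coe, Multiset.insert_eq_cons, Multiset.cons_add,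
        Multiset.singleton_add]
    rcases ih with h | h
    · left; rw [h, e]
    · right; rw [h, e, add_assoc]

lemma mem_prs : ∀ (l : List ℕ) (p : ℕ × ℕ), p ∈ prs l → (p.1 ∈ l) ∧ (p.2 ∈ l ∨ p.2 = 0)
  | [], p, h => by simp [prs] at h
  | [a], p, h => by
    simp only [prs, List.mem_singleton] at h
    subst h
    simp
  | a :: b :: l, p, h => by
    rw [prs, List.mem_cons] at h
    rcases h with h | h
    · subst h; simp
    · have := mem_prs l p h
      simp only [List.mem_cons]
      tauto

lemma prs_sorted : ∀ l : List ℕ, (l.Pairwise fun a b => b ≤ a) →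
    ((prs l).Pairwise fun p q => max q.1 q.2 ≤ max p.1 p.2)
  | [], _ => by simp [prs]
  | [a], _ => by simp [prs]
  | a :: b :: l, h => by
    rw [prs, List.pairwise_cons]
    rw [List.pairwise_cons, List.pairwise_cons] at h
    refine ⟨?_, prs_sorted l h.2.2⟩
    intro q hq
    have h1 := mem_prs l q hq
    have h2 : q.1 ≤ a := h.1 _ (List.mem_cons_of_mem _ h1.1)
    have h3 : q.2 ≤ a := by
      rcases h1.2 with h4 | h4
      · exact h.1 _ (List.mem_cons_of_mem _ h4)
      · rw [h4]; exact Nat.zero_le _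
    exact (max_le h2 h3).trans (le_max_left _ _)

lemma prs_sum {G : ℝ} (hG : 0 ≤ G) : ∀ (l : List ℕ) (c : ℕ), (l.Pairwise fun a b => b ≤ a) →
    (∀ x ∈ l, x ≤ c) →
    2 * ((prs l).map fun p => (((max p.1 p.2 : ℕ) : ℝ) + 16 * G) ^ 2).sum ≤
      (l.map fun m : ℕ => ((m : ℝ) + 16 * G) ^ 2).sum + ((c : ℝ) + 16 * G) ^ 2
  | [], c, _, _ => by simp [prs]; positivity
  | [a], c, _, h => by
    have h1 : (a : ℝ) ≤ c := by exact_mod_cast h a List.mem_cons_self
    have h2 : ((a : ℝ) + 16 * G) ^ 2 ≤ ((c : ℝ) + 16 * G) ^ 2 :=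
      pow_le_pow_left₀ (by positivity) (by linarith) 2
    simp only [prs, List.map_cons, List.map_nil, List.sum_cons, List.sum_nil, add_zero,
      Nat.max_zero]
    linarith
  | a :: b :: l, c, hs, h => by
    rw [List.pairwise_cons, List.pairwise_cons] at hs
    have ih := prs_sum hG l b hs.2.2 hs.2.1
    have h1 : (a : ℝ) ≤ c := by exact_mod_cast h a List.mem_cons_self
    have h2 : ((a : ℝ) + 16 * G) ^ 2 ≤ ((c : ℝ) + 16 * G) ^ 2 :=
      pow_le_pow_left₀ (by positivity) (by linarith) 2
    have h3 : max a b = a := max_eq_left (hs.1 b List.mem_cons_self)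
    simp only [prs, List.map_cons, List.sum_cons, h3]
    linarith

theorem pack : S_Pack := by
  intro hgr G D m1 K hG hD hK hineq
  have hD1 : 7 * m1 + 116 * G ≤ D := by
    have h1 : 0 ≤ (K.map fun m : ℕ => ((m : ℝ) + 16 * G) ^ 2).sum := by
      apply Multiset.sum_nonneg
      intro x hx
      rw [Multiset.mem_map] at hx
      obtain ⟨p, _, rfl⟩ := hx
      positivity
    have h3 : (7 * m1 + 116 * G) * D ≤ D * D := by nlinarith
    exact le_of_mul_le_mul_right h3 hD
  set l := K.sort (fun a b : ℕ => b ≤ a) with hl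
  have hlK : (l : Multiset ℕ) = K := Multiset.sort_eq _ _
  have hls : l.Pairwise fun a b => b ≤ a := Multiset.pairwise_sort _ _
  have hlm : ∀ x ∈ l, x ≤ m1 := by
    intro x hx
    apply hK
    rw [← hlK]
    exact hx
  have hsum := prs_sum (by linarith : (0 : ℝ) ≤ G) l m1 hls hlm
  have hKl : (K.map fun m : ℕ => ((m : ℝ) + 16 * G) ^ 2).sum =
      (l.map fun m : ℕ => ((m : ℝ) + 16 * G) ^ 2).sum := by
    rw [← hlK, Multiset.map_coe, Multiset.sum_coe]
  rw [hKl] at hineq
  set b0 : ℝ := m1 + 16 * G with hb0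
  have hb00 : 0 ≤ b0 := by positivity
  have hb0D : b0 ≤ D := by
    have : (0 : ℝ) ≤ m1 := Nat.cast_nonneg _
    rw [hb0]; linarith
  obtain ⟨L, h1, h2⟩ := hgr (b0 := b0) (D0 := D) hG (prs l) b0 D hD le_rfl hb00 le_rfl
    (prs_sorted l hls) (by
      intro p hp
      have h3 := mem_prs l p hp
      have h4 : p.1 ≤ m1 := hlm _ h3.1
      have h5 : p.2 ≤ m1 := by
        rcases h3.2 with h6 | h6
        · exact hlm _ h6
        · rw [h6]; exact Nat.zero_le _
      have h6 : ((max p.1 p.2 : ℕ) : ℝ) ≤ m1 := by exact_mod_cast max_le h4 h5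
      rw [hb0]
      linarith) (by
      have h7 : b0 ^ 2 ≤ b0 * D := by rw [sq]; exact mul_le_mul_of_nonneg_left hb0D hb00
      have h8 : (7 * m1 + 116 * G) * D = 7 * (b0 * D) + 4 * (G * D) := by rw [hb0]; ring
      rw [h8] at hineq
      nlinarith)
  refine ⟨L, h1, ?_⟩
  rw [pmT_eq, h2]
  have := pm_prs l
  rw [hlK] at this
  exact this

end Pool.Agent.Q195.PK
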