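import Pool.Agent.H200P.Stm3

set_option autoImplicit false

/-! Job PK18 (NefK) of project PK (helper200). -/

namespace Pool.Agent.Q195.PK

open Finset Pool.Agent Pool.Agent.H200P Pool.Agent.H200W Pool.Agent.H932R3 Pool.Agent.W609.CR

/-- the rounded class satisfies the hypotheses of the main theorem -/
lemma round_exp {ε γ : ℝ} (hε : 0 < ε) (hγ : 0 < γ)
    (hmain : ∀ {n d s : ℕ} {μ : ℝ} (w : Fin n → ℕ),
      1 ≤ s → 0 ≤ μ → (∀ i, (w i : ℝ) ≤ γ * d) →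
      ((univ.filter fun i => (w i : ℝ) ≤ μ).image w).card ≤ s → s * μ ^ 2 ≤ γ * (d : ℝ) ^ 2 →
      (∑ i ∈ univ.filter (fun i => γ * μ < (w i : ℝ)), (w i : ℝ) ^ 2 ≤
          (1 - ε / 2) * (d : ℝ) ^ 2 ∨
        ε / 2 * (d : ℝ) ^ 2 ≤ ∑ i ∈ univ.filter (fun i => (w i : ℝ) ≤ γ * μ), (w i : ℝ) ^ 2) →
      GenExp d w)
    {n s : ℕ} (c M : ℝ) (x : Fin n → ℝ) (hs : 1 ≤ s) (hc : 0 < c) (hM : 0 ≤ M)
    (hx : ∀ i, 0 ≤ x i) (hxγ : ∀ i, x i ≤ γ * c)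
    (hcard : ((univ.filter fun i => x i ≤ M).image x).card ≤ s) (hsM : s * M ^ 2 ≤ γ * c ^ 2)
    (hlow : ε * c ^ 2 ≤ ∑ i ∈ univ.filter (fun i => x i ≤ γ * M), x i ^ 2)
    (N : ℕ) (hN : 1 ≤ N) (h1 : ∀ i, M < x i → 1 ≤ N * (x i - M))
    (h2 : ε * c + ε / 2 + 2 * ∑ i, x i ≤ ε / 2 * c ^ 2 * N) (k : ℕ) (hk : 1 ≤ k) :
    GenExp (k * ⌈(N : ℝ) * c⌉₊) (fun i => k * ⌊(N : ℝ) * x i⌋₊) := by
  have hN0 : (1 : ℝ) ≤ N := by exact_mod_cast hN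
  have hk0 : (1 : ℝ) ≤ k := by exact_mod_cast hk
  have hNp : (0 : ℝ) < N := by linarith
  have hkp : (0 : ℝ) < k := by linarith
  have hd : (N : ℝ) * c ≤ ⌈(N : ℝ) * c⌉₊ := Nat.le_ceil _
  have hd' : ((⌈(N : ℝ) * c⌉₊ : ℕ) : ℝ) ≤ N * c + 1 := (Nat.ceil_lt_add_one (by positivity)).le
  have hv : ∀ i, ((⌊(N : ℝ) * x i⌋₊ : ℕ) : ℝ) ≤ N * x i := fun i =>
    Nat.floor_le (mul_nonneg hNp.le (hx i))
  have hv' : ∀ i, (N : ℝ) * x i < ((⌊(N : ℝ) * x i⌋₊ : ℕ) : ℝ) + 1 := fun i =>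
    Nat.lt_floor_add_one _
  have hkd : (k : ℝ) * (N * c) ≤ ((k * ⌈(N : ℝ) * c⌉₊ : ℕ) : ℝ) := by
    push_cast
    exact mul_le_mul_of_nonneg_left hd hkp.le
  apply hmain (s := s) (μ := k * (N * M)) _ hs (by positivity)
  · intro i
    push_cast
    have e1 : (k : ℝ) * (⌊(N : ℝ) * x i⌋₊ : ℕ) ≤ k * (N * (γ * c)) := by
      apply mul_le_mul_of_nonneg_left _ hkp.le
      exact (hv i).trans (mul_le_mul_of_nonneg_left (hxγ i) hNp.le)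
    have e2 : γ * ((k : ℝ) * (N * c)) ≤ γ * (k * (⌈(N : ℝ) * c⌉₊ : ℕ)) :=
      mul_le_mul_of_nonneg_left (mul_le_mul_of_nonneg_left hd hkp.le) hγ.le
    calc (k : ℝ) * (⌊(N : ℝ) * x i⌋₊ : ℕ) ≤ k * (N * (γ * c)) := e1
      _ = γ * ((k : ℝ) * (N * c)) := by ring
      _ ≤ _ := e2
  · refine le_trans ?_ hcard
    have hsub : (univ.filter fun i => (((k * ⌊(N : ℝ) * x i⌋₊ : ℕ) : ℝ) ≤ k * (N * M))).image
        (fun i => k * ⌊(N : ℝ) * x i⌋₊) ⊆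
        ((univ.filter fun i => x i ≤ M).image x).image (fun t => k * ⌊(N : ℝ) * t⌋₊) := by
      intro y hy
      rw [Finset.mem_image] at hy
      obtain ⟨i, hi, rfl⟩ := hy
      rw [Finset.mem_filter] at hi
      rw [Finset.mem_image]
      refine ⟨x i, ?_, rfl⟩
      rw [Finset.mem_image]
      refine ⟨i, ?_, rfl⟩
      rw [Finset.mem_filter]
      refine ⟨Finset.mem_univ _, ?_⟩
      by_contra hcon
      push Not at hcon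
      have e1 := h1 i hcon
      have e2 := hi.2
      push_cast at e2
      have e3 : ((⌊(N : ℝ) * x i⌋₊ : ℕ) : ℝ) ≤ N * M := le_of_mul_le_mul_left e2 hkp
      have e4 := hv' i
      nlinarith
    exact (Finset.card_le_card hsub).trans Finset.card_image_le
  · have e1 : (s : ℝ) * (k * (N * M)) ^ 2 = (s * M ^ 2) * (k * N) ^ 2 := by ring
    have e2 : γ * (k * (N * c)) ^ 2 = (γ * c ^ 2) * (k * N) ^ 2 := by ring
    rw [e1]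
    refine (mul_le_mul_of_nonneg_right hsM (by positivity)).trans ?_
    rw [← e2]
    apply mul_le_mul_of_nonneg_left _ hγ.le
    exact pow_le_pow_left₀ (by positivity) hkd 2
  · right
    have e1 : ∑ i ∈ univ.filter (fun i => x i ≤ γ * M), (((k * ⌊(N : ℝ) * x i⌋₊ : ℕ) : ℝ)) ^ 2 ≤
        ∑ i ∈ univ.filter (fun i => ((k * ⌊(N : ℝ) * x i⌋₊ : ℕ) : ℝ) ≤ γ * (k * (N * M))),
          (((k * ⌊(N : ℝ) * x i⌋₊ : ℕ) : ℝ)) ^ 2 := by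
      apply Finset.sum_le_sum_of_subset_of_nonneg
      · intro i hi
        rw [Finset.mem_filter] at hi ⊢
        refine ⟨hi.1, ?_⟩
        push_cast
        have e2 : (k : ℝ) * (⌊(N : ℝ) * x i⌋₊ : ℕ) ≤ k * (N * (γ * M)) := by
          apply mul_le_mul_of_nonneg_left _ hkp.le
          exact (hv i).trans (mul_le_mul_of_nonneg_left hi.2 hNp.le)
        calc (k : ℝ) * (⌊(N : ℝ) * x i⌋₊ : ℕ) ≤ k * (N * (γ * M)) := e2
          _ = γ * (k * (N * M)) := by ring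
      · intro i _ _
        positivity
    refine le_trans ?_ e1
    have e3 : ∀ i, (N : ℝ) ^ 2 * x i ^ 2 - 2 * N * x i ≤ ((⌊(N : ℝ) * x i⌋₊ : ℕ) : ℝ) ^ 2 := by
      intro i
      have f1 := hv' i
      have f2 : 0 ≤ (N : ℝ) * x i := mul_nonneg hNp.le (hx i)
      rcases le_or_gt 1 ((N : ℝ) * x i) with f3 | f3
      · have f4 : ((N : ℝ) * x i - 1) ^ 2 ≤ ((⌊(N : ℝ) * x i⌋₊ : ℕ) : ℝ) ^ 2 :=
          pow_le_pow_left₀ (by linarith) (by linarith) 2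
        nlinarith
      · have f4 : (0 : ℝ) ≤ ((⌊(N : ℝ) * x i⌋₊ : ℕ) : ℝ) ^ 2 := by positivity
        nlinarith
    have e4 : ∑ i ∈ univ.filter (fun i => x i ≤ γ * M),
        ((N : ℝ) ^ 2 * x i ^ 2 - 2 * N * x i) ≤
        ∑ i ∈ univ.filter (fun i => x i ≤ γ * M), ((⌊(N : ℝ) * x i⌋₊ : ℕ) : ℝ) ^ 2 :=
      Finset.sum_le_sum fun i _ => e3 i
    rw [Finset.sum_sub_distrib, ← Finset.mul_sum, ← Finset.mul_sum] at e4
    have e5 : ∑ i ∈ univ.filter (fun i => x i ≤ γ * M), x i ≤ ∑ i, x i :=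
      Finset.sum_le_sum_of_subset_of_nonneg (Finset.filter_subset _ _) fun i _ _ => hx i
    have e6 : ∑ i ∈ univ.filter (fun i => x i ≤ γ * M),
        (((k * ⌊(N : ℝ) * x i⌋₊ : ℕ) : ℝ)) ^ 2 =
        (k : ℝ) ^ 2 * ∑ i ∈ univ.filter (fun i => x i ≤ γ * M),
          ((⌊(N : ℝ) * x i⌋₊ : ℕ) : ℝ) ^ 2 := by
      rw [Finset.mul_sum]
      apply Finset.sum_congr rfl
      intro i _
      push_cast
      ring
    rw [e6]
    have e7 : (((k * ⌈(N : ℝ) * c⌉₊ : ℕ) : ℝ)) ^ 2 = (k : ℝ) ^ 2 * ((⌈(N : ℝ) * c⌉₊ : ℕ) : ℝ) ^ 2 := by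
      push_cast
      ring
    rw [e7]
    have e8 : ε / 2 * ((⌈(N : ℝ) * c⌉₊ : ℕ) : ℝ) ^ 2 ≤
        ∑ i ∈ univ.filter (fun i => x i ≤ γ * M), ((⌊(N : ℝ) * x i⌋₊ : ℕ) : ℝ) ^ 2 := by
      refine le_trans ?_ e4
      have f1 : ((⌈(N : ℝ) * c⌉₊ : ℕ) : ℝ) ^ 2 ≤ (N * c + 1) ^ 2 :=
        pow_le_pow_left₀ (Nat.cast_nonneg _) hd' 2
      have f2 : ε / 2 * ((⌈(N : ℝ) * c⌉₊ : ℕ) : ℝ) ^ 2 ≤ ε / 2 * (N * c + 1) ^ 2 :=
        mul_le_mul_of_nonneg_left f1 (by positivity)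
      have f3 : (N : ℝ) ^ 2 * (ε * c ^ 2) ≤
          (N : ℝ) ^ 2 * ∑ i ∈ univ.filter (fun i => x i ≤ γ * M), x i ^ 2 :=
        mul_le_mul_of_nonneg_left hlow (by positivity)
      have f4 : 2 * (N : ℝ) * ∑ i ∈ univ.filter (fun i => x i ≤ γ * M), x i ≤
          2 * (N : ℝ) * ∑ i, x i := mul_le_mul_of_nonneg_left e5 (by positivity)
      have f5 : (N : ℝ) * (ε * c + ε / 2 + 2 * ∑ i, x i) ≤ N * (ε / 2 * c ^ 2 * N) :=
        mul_le_mul_of_nonneg_left h2 hNp.le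
      have f6 : ε / 2 * 1 ≤ ε / 2 * N := mul_le_mul_of_nonneg_left hN0 (by positivity)
      nlinarith
    have e9 := mul_le_mul_of_nonneg_left e8 (by positivity : (0 : ℝ) ≤ (k : ℝ) ^ 2)
    calc ε / 2 * ((k : ℝ) ^ 2 * ((⌈(N : ℝ) * c⌉₊ : ℕ) : ℝ) ^ 2)
        = (k : ℝ) ^ 2 * (ε / 2 * ((⌈(N : ℝ) * c⌉₊ : ℕ) : ℝ) ^ 2) := by ring
      _ ≤ _ := e9

theorem nefK : S_NefK := by
  intro hMC hNE ε hε
  obtain ⟨γ, hγ, hmain⟩ := hMC (ε / 2) (by positivity)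
  refine ⟨γ, hγ, ?_⟩
  intro n s P hP c M x hs hc hM hx hxγ hcard hsM hlow hsq G e u hG hGh hvan
  obtain ⟨N1, hN1⟩ : ∃ N1 : ℕ, ∀ N : ℕ, N1 ≤ N → ∀ i, M < x i → 1 ≤ (N : ℝ) * (x i - M) := by
    have h1 : ∀ i, ∃ N1 : ℕ, ∀ N : ℕ, N1 ≤ N → M < x i → 1 ≤ (N : ℝ) * (x i - M) := by
      intro i
      by_cases h : M < x i
      · obtain ⟨N1, hN1⟩ := exists_nat_ge (1 / (x i - M))
        refine ⟨N1, fun N hN _ => ?_⟩
        have h2 : (N1 : ℝ) ≤ N := by exact_mod_cast hN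
        have h3 : 0 < x i - M := by linarith
        rw [div_le_iff₀ h3] at hN1
        have := mul_le_mul_of_nonneg_right h2 h3.le
        linarith
      · exact ⟨0, fun N _ h' => absurd h' h⟩
    choose f hf using h1
    refine ⟨univ.sup f, fun N hN i => hf i N ((Finset.le_sup (Finset.mem_univ i)).trans hN)⟩
  obtain ⟨N2, hN2⟩ := exists_nat_ge ((ε * c + ε / 2 + 2 * ∑ i, x i) / (ε / 2 * c ^ 2))
  have hpos : 0 < ε / 2 * c ^ 2 := by positivity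
  rw [div_le_iff₀ hpos] at hN2
  have key : ∀ N : ℕ, N1 ≤ N → N2 ≤ N → 1 ≤ N →
      (N : ℝ) * (∑ i, x i * (u i : ℝ) - c * e) ≤ e + ∑ i, (u i : ℝ) := by
    intro N h1 h2 h3
    have h2' : (N2 : ℝ) ≤ N := by exact_mod_cast h2
    have hNp : (0 : ℝ) < N := by exact_mod_cast h3
    have hd : (N : ℝ) * c ≤ ⌈(N : ℝ) * c⌉₊ := Nat.le_ceil _
    have hd' : ((⌈(N : ℝ) * c⌉₊ : ℕ) : ℝ) ≤ N * c + 1 := (Nat.ceil_lt_add_one (by positivity)).le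
    have hv : ∀ i, ((⌊(N : ℝ) * x i⌋₊ : ℕ) : ℝ) ≤ N * x i := fun i =>
      Nat.floor_le (mul_nonneg hNp.le (hx i))
    have hv' : ∀ i, (N : ℝ) * x i < ((⌊(N : ℝ) * x i⌋₊ : ℕ) : ℝ) + 1 := fun i =>
      Nat.lt_floor_add_one _
    have hsq' : ∑ i, ⌊(N : ℝ) * x i⌋₊ ^ 2 ≤ ⌈(N : ℝ) * c⌉₊ ^ 2 := by
      have : ((∑ i, ⌊(N : ℝ) * x i⌋₊ ^ 2 : ℕ) : ℝ) ≤ ((⌈(N : ℝ) * c⌉₊ ^ 2 : ℕ) : ℝ) := by
        push_cast
        have g1 : ∑ i, ((⌊(N : ℝ) * x i⌋₊ : ℕ) : ℝ) ^ 2 ≤ ∑ i, (N * x i) ^ 2 :=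
          Finset.sum_le_sum fun i _ => pow_le_pow_left₀ (Nat.cast_nonneg _) (hv i) 2
        have g2 : ∑ i, ((N : ℝ) * x i) ^ 2 = (N : ℝ) ^ 2 * ∑ i, x i ^ 2 := by
          rw [Finset.mul_sum]
          exact Finset.sum_congr rfl fun i _ => by ring
        have g3 : (N : ℝ) ^ 2 * ∑ i, x i ^ 2 ≤ (N : ℝ) ^ 2 * c ^ 2 :=
          mul_le_mul_of_nonneg_left hsq (by positivity)
        have g4 : ((N : ℝ) * c) ^ 2 ≤ ((⌈(N : ℝ) * c⌉₊ : ℕ) : ℝ) ^ 2 :=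
          pow_le_pow_left₀ (by positivity) hd 2
        nlinarith
      exact_mod_cast this
    have hres := hNE (P := P) (k0 := 1) hsq' (fun k hk =>
      round_exp hε hγ hmain c M x hs hc hM hx hxγ hcard hsM hlow N h3 (hN1 N h1) (by
        have := mul_le_mul_of_nonneg_left h2' hpos.le
        linarith) k hk hP) G e u hG hGh hvan
    have hres' : ∑ i, ((⌊(N : ℝ) * x i⌋₊ : ℕ) : ℝ) * (u i : ℝ) ≤
        ((⌈(N : ℝ) * c⌉₊ : ℕ) : ℝ) * e := by exact_mod_cast hres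
    have g1 : ∑ i, ((N : ℝ) * x i - 1) * (u i : ℝ) ≤
        ∑ i, ((⌊(N : ℝ) * x i⌋₊ : ℕ) : ℝ) * (u i : ℝ) :=
      Finset.sum_le_sum fun i _ => mul_le_mul_of_nonneg_right (by linarith [hv' i])
        (Nat.cast_nonneg _)
    have g2 : ∑ i, ((N : ℝ) * x i - 1) * (u i : ℝ) =
        N * ∑ i, x i * (u i : ℝ) - ∑ i, (u i : ℝ) := by
      rw [Finset.mul_sum, ← Finset.sum_sub_distrib]
      exact Finset.sum_congr rfl fun i _ => by ring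
    have g3 : ((⌈(N : ℝ) * c⌉₊ : ℕ) : ℝ) * e ≤ (N * c + 1) * e :=
      mul_le_mul_of_nonneg_right hd' (Nat.cast_nonneg _)
    nlinarith
  by_contra hcon
  push Not at hcon
  have hδ : 0 < ∑ i, x i * (u i : ℝ) - c * e := by linarith
  obtain ⟨N3, hN3⟩ := exists_nat_gt ((e + ∑ i, (u i : ℝ)) / (∑ i, x i * (u i : ℝ) - c * e))
  rw [div_lt_iff₀ hδ] at hN3
  obtain ⟨N, hN⟩ : ∃ N : ℕ, N = max (max N1 N2) (max N3 1) := ⟨_, rfl⟩
  have h1 := key N (by rw [hN]; exact (le_max_left _ _).trans (le_max_left _ _))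
    (by rw [hN]; exact (le_max_right _ _).trans (le_max_left _ _))
    (by rw [hN]; exact (le_max_right _ _).trans (le_max_right _ _))
  have h2 : (N3 : ℝ) ≤ N := by
    have : N3 ≤ N := by rw [hN]; exact (le_max_left _ _).trans (le_max_right _ _)
    exact_mod_cast this
  have h3 := mul_le_mul_of_nonneg_right h2 hδ.le
  linarith

end Pool.Agent.Q195.PK
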