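import Pool.Agent.H200P.Stm

set_option autoImplicit false

/-! Jobs PK3 (QuadS) and PK3E (QuadE) of project PK (helper200). -/

namespace Pool.Agent.Q195.PK

open Pool.Agent Pool.Agent.H200P Pool.Agent.TH176.Nag Pool.Agent.TH603.Sur Pool.Agent.TH2.NU
open Pool.Agent.TH641.UM Pool.Agent.Y205.FW Pool.Agent.Y205.MD Pool.Agent.H200W

lemma ga_q {w D t : ℝ} (h0 : 0 ≤ t) (h1 : D - w ≤ t) :
    ga 0 w D t = 2 * w * t - (t - (D - w)) ^ 2 := by
  unfold ga
  rw [max_eq_right (by linarith : 0 ≤ t - (D - w)), max_eq_left (by linarith : 0 - t ≤ 0)]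
  ring

lemma ga_q0 {w D : ℝ} (h1 : w ≤ D) : ga 0 w D 0 = 0 := by
  unfold ga
  rw [max_eq_left (by linarith : 0 - (D - w) ≤ 0), sub_zero, max_self]
  ring

lemma rl_q {w D t : ℝ} (h0 : 0 ≤ t) (h1 : D - t ≤ w) : rl 0 w D t = D - t := by
  unfold rl
  rw [min_eq_right h1, max_eq_left (by linarith : 0 - t ≤ 0)]
  ring

lemma rl_q0 {w D : ℝ} (h1 : w ≤ D) : rl 0 w D 0 = w := by
  unfold rl
  rw [sub_zero, min_eq_left h1, sub_zero, max_self]
  ring

theorem quadS : S_QuadS := by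
  intro h u G w D hh hG hu huG hw hD
  have hG5 : 5 ≤ G := by linarith
  refine Q53.WR.divS (t0 := D - 14 * G) (t1 := D - 13 * G) (fun t => ZO 0 w D 0 t)
    (fun t => {p : ℤ × ℤ | t < (p.2 : ℝ) ∧ 0 < p.1 ∧ (p.1 : ℝ) < D - p.2})
    (fun t => ga 0 w D t - ga 0 w D 0 - 6 * (t - 0))
    (fun t => (D - t) ^ 2 - (D - t)) (by linarith) ?_ ?_ ?_ hu ?_ ?_ ?_ ?_
  · have := Q187.WR.ga_cont 0 w D
    exact Continuous.continuousOn (by fun_prop)
  · rw [ga_q (by linarith) (by linarith), ga_q0 hD]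
    have h1 : 0 ≤ (w - 14 * G) * (w + 14 * G - 6) := mul_nonneg (by linarith) (by linarith)
    have h2 : 0 ≤ (D - w) * (2 * w - 6) := mul_nonneg (by linarith) (by linarith)
    nlinarith
  · rw [ga_q0 hD, ga_q (t := D - 13 * G) (by linarith) (by linarith),
      ga_q (t := D - 14 * G) (by linarith) (by linarith)]
    nlinarith
  · intro t ht
    rw [ga_q (by linarith [ht.1]) (by linarith [ht.1]), ga_q0 hD]
    nlinarith [ht.2]
  · intro t ht
    refine p_stackS (G := G) hh hG hu huG (by linarith [ht.1]) ?_ ?_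
    · rw [rl_q0 hD]
      linarith
    · rw [rl_q (by linarith [ht.1]) (by linarith [ht.1])]
      linarith [ht.2]
  · intro t ht
    exact topS hh (by linarith [ht.2])
  · intro t ht M1 M2 g1 g2
    refine p_cutS 0 1 t ?_ ?_ g1 g2
    · rintro p ⟨p1, p2, p3, p4, p5, p6⟩
      have h2 : 0 < p.2 := by exact_mod_cast p1
      exact ⟨⟨p3, h2, p5, by linarith⟩, by linarith⟩
    · rintro p ⟨p1, p2, p3⟩
      have h4 : (0 : ℝ) < p.1 := by exact_mod_cast p2
      have h5 : (0 : ℝ) < p.2 := by linarith [ht.1]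
      have h6 : 0 < p.2 := by exact_mod_cast h5
      exact ⟨⟨p2, h6, by linarith [ht.1], by linarith⟩, by linarith⟩

lemma QC_finite (w D : ℝ) : (QC w D).Finite := by
  apply Set.Finite.subset (Set.Finite.prod (Set.finite_Icc (0 : ℤ) ⌊D⌋) (Set.finite_Icc (0 : ℤ) ⌊D⌋))
  rintro p ⟨h1, h2, h3, h4⟩
  have h5 : (0 : ℝ) ≤ p.1 := by exact_mod_cast h1
  have h6 : (0 : ℝ) ≤ p.2 := by exact_mod_cast h2
  refine ⟨⟨h1, Int.le_floor.mpr (by linarith)⟩, ⟨h2, Int.le_floor.mpr (by linarith)⟩⟩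

theorem quadE : S_QuadE := by
  intro h u G w D hh hG hu huG hw hD
  have hG5 : 5 ≤ G := by linarith
  refine Q53.WR.divE (t0 := D - 14 * G) (t1 := D - 13 * G) (fun t => ZC 0 w D 0 t)
    (fun t => {p : ℤ × ℤ | t ≤ (p.2 : ℝ) ∧ 0 ≤ p.1 ∧ (p.1 : ℝ) ≤ D - p.2})
    (fun t => ga 0 w D t - ga 0 w D 0)
    (fun t => (D - t) ^ 2) (by linarith) ?_ ?_ ?_ hu ?_ ?_ ?_ ?_ ?_
  · have := Q187.WR.ga_cont 0 w D
    exact Continuous.continuousOn (by fun_prop)
  · rw [ga_q (by linarith) (by linarith), ga_q0 hD]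
    have h1 : 0 ≤ (w - 14 * G) * (w + 14 * G) := mul_nonneg (by linarith) (by linarith)
    have h2 : 0 ≤ (D - w) * (2 * w) := mul_nonneg (by linarith) (by linarith)
    nlinarith
  · rw [ga_q0 hD, ga_q (t := D - 13 * G) (by linarith) (by linarith),
      ga_q (t := D - 14 * G) (by linarith) (by linarith)]
    nlinarith
  · intro t ht
    rw [ga_q (by linarith [ht.1]) (by linarith [ht.1]), ga_q0 hD]
    nlinarith [ht.2]
  · intro t _
    positivity
  · intro t ht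
    refine p_stackE (G := G) hh hG hu huG (by linarith [ht.1]) ?_ ?_
    · rw [rl_q0 hD]
      linarith
    · rw [rl_q (by linarith [ht.1]) (by linarith [ht.1])]
      linarith [ht.2]
  · intro t ht
    exact topE hh (by linarith [ht.2])
  · intro t ht M1 M2 g1 g2
    refine p_cutE 0 1 t (QC_finite _ _) ?_ g1 g2
    rintro p ⟨p1, p2, p3, p4⟩
    have h5 : (0 : ℝ) ≤ p.1 := by exact_mod_cast p1
    have h6 : (0 : ℝ) ≤ p.2 := by exact_mod_cast p2
    rcases le_or_gt (p.2 : ℝ) t with g | g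
    · left
      exact ⟨⟨h6, g, p1, by linarith, p3, by linarith⟩, by linarith⟩
    · right
      exact ⟨⟨g.le, p1, by linarith⟩, by linarith⟩

end Pool.Agent.Q195.PK
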