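import Pool.Agent.H200P.Stm3

set_option autoImplicit false

/-! Job PK16 (Scale) of project PK (helper200). -/

namespace Pool.Agent.Q195.PK

open Finset Pool.Agent.H200P

lemma exists_band {n : ℕ} (w : Fin n → ℕ) (ν : ℕ → ℕ) (hν : Monotone ν) (J : ℕ) (hJ : 1 ≤ J)
    (S : Finset (Fin n)) (hS : ∀ i, ν 0 < w i → i ∈ S) (X : ℝ)
    (hX : ∑ i ∈ S, (w i : ℝ) ^ 2 ≤ X) :
    ∃ j < J, ∑ i ∈ univ.filter (fun i => ν j < w i ∧ w i ≤ ν (j + 1)), (w i : ℝ) ^ 2 ≤ X / J := by
  by_contra hcon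
  push Not at hcon
  have hJ0 : (0 : ℝ) < J := by exact_mod_cast hJ
  have h1 : ∑ j ∈ range J, X / J <
      ∑ j ∈ range J, ∑ i ∈ univ.filter (fun i => ν j < w i ∧ w i ≤ ν (j + 1)), (w i : ℝ) ^ 2 := by
    apply Finset.sum_lt_sum_of_nonempty
    · exact ⟨0, Finset.mem_range.mpr (by omega)⟩
    · intro j hj
      exact hcon j (Finset.mem_range.mp hj)
  rw [Finset.sum_const, Finset.card_range, nsmul_eq_mul, mul_div_cancel₀ _ hJ0.ne'] at h1
  have hdis : ∀ a ∈ range J, ∀ b ∈ range J, a ≠ b →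
      Disjoint (univ.filter (fun i => ν a < w i ∧ w i ≤ ν (a + 1)))
        (univ.filter (fun i => ν b < w i ∧ w i ≤ ν (b + 1))) := by
    intro a _ b _ hab
    rw [Finset.disjoint_left]
    intro i hi hi'
    rw [Finset.mem_filter] at hi hi'
    rcases Nat.lt_or_gt_of_ne hab with h | h
    · have := hν (by omega : a + 1 ≤ b)
      omega
    · have := hν (by omega : b + 1 ≤ a)
      omega
  rw [← Finset.sum_biUnion hdis] at h1
  have h2 : ∑ i ∈ (range J).biUnion (fun j => univ.filter (fun i => ν j < w i ∧ w i ≤ ν (j + 1))),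
      (w i : ℝ) ^ 2 ≤ ∑ i ∈ S, (w i : ℝ) ^ 2 := by
    apply Finset.sum_le_sum_of_subset_of_nonneg
    · intro i hi
      rw [Finset.mem_biUnion] at hi
      obtain ⟨j, _, hj⟩ := hi
      rw [Finset.mem_filter] at hj
      apply hS
      exact lt_of_le_of_lt (hν (Nat.zero_le j)) hj.2.1
    · intro i _ _
      positivity
  linarith

lemma scale_le_one (ε : ℝ) (hε : 0 < ε) (hε1 : ε ≤ 1) : ∃ c : ℝ, 0 < c ∧
    ∀ {n d s : ℕ} {μ : ℝ} (w : Fin n → ℕ),
    1 ≤ s → 0 ≤ μ → (∀ i, (w i : ℝ) ≤ c * d) →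
    ((univ.filter fun i => (w i : ℝ) ≤ μ).image w).card ≤ s → s * μ ^ 2 ≤ c * (d : ℝ) ^ 2 →
    ∑ i ∈ univ.filter (fun i => c * μ < (w i : ℝ)), (w i : ℝ) ^ 2 ≤ (1 - ε) * (d : ℝ) ^ 2 →
    (∀ i, w i = 0) ∨ PackAt d w := by
  set C : ℝ := 2 ^ 19 / ε with hC
  have hC1 : 2 ^ 19 ≤ C := by
    rw [hC, le_div_iff₀ hε]
    nlinarith
  have hCε : C * ε = 2 ^ 19 := by
    rw [hC]; field_simp
  obtain ⟨K0, hK0⟩ := exists_nat_ge (8 * C / ε)
  obtain ⟨J, hJ⟩ := exists_nat_ge (8 * (1 + C) ^ 2 / ε)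
  rw [div_le_iff₀ hε] at hK0 hJ
  have hK1 : 1 ≤ K0 := by
    by_contra h
    have : K0 = 0 := by omega
    rw [this, Nat.cast_zero, zero_mul] at hK0
    linarith
  have hJ1 : 1 ≤ J := by
    by_contra h
    have : J = 0 := by omega
    rw [this, Nat.cast_zero, zero_mul] at hJ
    have : 0 < 8 * (1 + C) ^ 2 := by positivity
    linarith
  set T : ℝ := (K0 : ℝ) ^ J with hT
  have hK1r : (1 : ℝ) ≤ K0 := by exact_mod_cast hK1
  have hT1 : 1 ≤ T := one_le_pow₀ hK1r
  have hT0 : 0 < T := by linarith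
  have hC0 : 0 < C := by linarith
  set a : ℝ := ε / (2 ^ 40 * C * T ^ 3) with ha
  have ha0 : 0 < a := by positivity
  have haε : a * (2 ^ 40 * C * T ^ 3) = ε := by
    rw [ha]; field_simp
  -- multiples of `a`
  have hmul : ∀ x : ℝ, x ≤ 2 ^ 40 * C * T ^ 3 → a * x ≤ ε := by
    intro x hx
    rw [← haε]
    exact mul_le_mul_of_nonneg_left hx ha0.le
  have hT3 : T ≤ T ^ 3 := le_self_pow₀ hT1 (by norm_num)
  have hCT : 1 ≤ C * T ^ 3 := by
    have : 1 ≤ T ^ 3 := one_le_pow₀ hT1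
    nlinarith
  have hTC : T ≤ C * T ^ 3 := by
    have : 1 * T ≤ C * T ^ 3 := mul_le_mul (by linarith) hT3 hT0.le hC0.le
    linarith
  have hT3C : T ^ 3 ≤ C * T ^ 3 := by
    have : 1 * T ^ 3 ≤ C * T ^ 3 := mul_le_mul_of_nonneg_right (by linarith) (by positivity)
    linarith
  have hCTT : C * T ≤ C * T ^ 3 := mul_le_mul_of_nonneg_left hT3 hC0.le
  have b1 : a * 2 ^ 33 ≤ ε := hmul _ (by nlinarith)
  have b2 : a * (2 ^ 33 * T) ≤ ε := hmul _ (by nlinarith)
  have b3 : a * (2 ^ 33 * T ^ 3) ≤ ε := hmul _ (by nlinarith)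
  have b4 : a * (64 * (C * T)) ≤ ε := hmul _ (by nlinarith)
  have ha1 : a ≤ 1 := by nlinarith
  have haa : a ^ 2 ≤ a := by nlinarith
  refine ⟨a ^ 2, by positivity, ?_⟩
  intro n d s μ w hs hμ hw hcard hsμ hsum
  by_cases hall : ∀ i, w i = 0
  · exact Or.inl hall
  right
  push Not at hall
  obtain ⟨i0, hi0⟩ := hall
  have hcd : 1 ≤ a ^ 2 * d := by
    have : (1 : ℝ) ≤ w i0 := by exact_mod_cast Nat.pos_of_ne_zero hi0
    exact this.trans (hw i0)
  have hd0 : (0 : ℝ) < d := by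
    by_contra h
    push Not at h
    have : a ^ 2 * (d : ℝ) ≤ 0 := mul_nonpos_of_nonneg_of_nonpos (by positivity) h
    linarith
  have hd1 : 1 ≤ d := by
    have : d ≠ 0 := by
      rintro rfl
      simp at hd0
    omega
  have hμd : μ ≤ a * d := by
    have h1 : (1 : ℝ) ≤ s := by exact_mod_cast hs
    have h2 : μ ^ 2 ≤ (a * d) ^ 2 := by
      have h3 : μ ^ 2 ≤ s * μ ^ 2 := by
        have : 0 ≤ μ ^ 2 := by positivity
        nlinarith
      calc μ ^ 2 ≤ s * μ ^ 2 := h3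
        _ ≤ a ^ 2 * (d : ℝ) ^ 2 := hsμ
        _ = (a * d) ^ 2 := by ring
    exact (sq_le_sq₀ hμ (by positivity)).mp h2
  set ν0 : ℕ := max 1 ⌈a ^ 2 * μ⌉₊ with hν0
  set ν : ℕ → ℕ := fun j => K0 ^ j * ν0 with hν
  have hν01 : 1 ≤ ν0 := le_max_left _ _
  have hνc : a ^ 2 * μ ≤ ν0 := by
    have h1 : a ^ 2 * μ ≤ (⌈a ^ 2 * μ⌉₊ : ℝ) := Nat.le_ceil _
    have h2 : ((⌈a ^ 2 * μ⌉₊ : ℕ) : ℝ) ≤ (ν0 : ℝ) := by exact_mod_cast le_max_right _ _
    linarith
  have hνm : Monotone ν := by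
    intro i j hij
    exact Nat.mul_le_mul_right _ (Nat.pow_le_pow_right (by omega) hij)
  have hX : ∑ i ∈ univ.filter (fun i => a ^ 2 * μ < (w i : ℝ)), (w i : ℝ) ^ 2 ≤ (d : ℝ) ^ 2 := by
    refine hsum.trans ?_
    have : 0 ≤ ε * (d : ℝ) ^ 2 := by positivity
    linarith
  obtain ⟨j, hjJ, hband⟩ := exists_band w ν hνm J hJ1
    (univ.filter (fun i => a ^ 2 * μ < (w i : ℝ))) (by
      intro i hi
      rw [Finset.mem_filter]
      refine ⟨Finset.mem_univ _, ?_⟩
      have h1 : ν 0 = ν0 := by rw [hν]; simp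
      rw [h1] at hi
      have : (ν0 : ℝ) < w i := by exact_mod_cast hi
      linarith) _ hX
  have hνT : (ν j : ℝ) ≤ T * ν0 := by
    have h1 : (K0 : ℝ) ^ j ≤ T := pow_le_pow_right₀ hK1r hjJ.le
    rw [hν]
    push_cast
    exact mul_le_mul_of_nonneg_right h1 (by positivity)
  have hν1 : 1 ≤ ν j := by
    have : ν 0 ≤ ν j := hνm (Nat.zero_le _)
    have h1 : ν 0 = ν0 := by rw [hν]; simp
    omega
  have hν1r : (1 : ℝ) ≤ ν j := by exact_mod_cast hν1
  have hdich : (ν j : ℝ) ≤ T ∨ (ν j : ℝ) ≤ μ := by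
    by_cases h : a ^ 2 * μ ≤ 1
    · left
      have : ν0 = 1 := by
        rw [hν0]
        apply max_eq_left
        rw [Nat.ceil_le]
        exact_mod_cast h
      rw [this] at hνT
      simpa using hνT
    · right
      push Not at h
      have h1 : (ν0 : ℝ) ≤ 2 * (a ^ 2 * μ) := by
        have h2 : ((⌈a ^ 2 * μ⌉₊ : ℕ) : ℝ) < a ^ 2 * μ + 1 := Nat.ceil_lt_add_one (by positivity)
        rw [hν0, Nat.cast_max]
        apply max_le
        · push_cast; linarith
        · linarith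
      have h3 : T * (ν0 : ℝ) ≤ T * (2 * (a ^ 2 * μ)) := mul_le_mul_of_nonneg_left h1 hT0.le
      have h4 : 2 * (a ^ 2 * T) ≤ 1 := by
        have : a ^ 2 * T ≤ a * T := mul_le_mul_of_nonneg_right haa hT0.le
        nlinarith
      have h5 : 2 * (a ^ 2 * T) * μ ≤ 1 * μ := mul_le_mul_of_nonneg_right h4 hμ
      have h6 : T * (2 * (a ^ 2 * μ)) = 2 * (a ^ 2 * T) * μ := by ring
      linarith
  have hνd : (ν j : ℝ) ≤ a * T * d := by
    rcases hdich with h | h
    · have h1 : 1 ≤ a * d := by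
        have : a ^ 2 * d ≤ a * d := mul_le_mul_of_nonneg_right haa hd0.le
        linarith
      have h2 : T * 1 ≤ T * (a * d) := mul_le_mul_of_nonneg_left h1 hT0.le
      have h3 : T * (a * d) = a * T * d := by ring
      linarith
    · have h1 : a * d * 1 ≤ a * d * T := mul_le_mul_of_nonneg_left hT1 (by positivity)
      have h2 : a * d * T = a * T * d := by ring
      linarith
  set V : ℝ := (ν j : ℝ) with hV
  set A : Finset (Fin n) := univ.filter (fun i => ν j < w i) with hA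
  set B : Finset (Fin n) := univ.filter (fun i => ν j < w i ∧ w i ≤ ν (j + 1)) with hB
  have hη : (ε / 2 : ℝ) ≠ 0 := by positivity
  have e1 : 2 ^ 17 * (V + 1) / (ε / 2) ≤ C * V := by
    rw [div_le_iff₀ (by positivity)]
    have : C * V * (ε / 2) = (C * ε) * V / 2 := by ring
    rw [this, hCε]
    nlinarith
  have e2 : 2 ^ 20 * (V + 1) / (ε / 2) ≤ 8 * (C * V) := by
    rw [div_le_iff₀ (by positivity)]
    have : 8 * (C * V) * (ε / 2) = 4 * ((C * ε) * V) := by ring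
    rw [this, hCε]
    nlinarith
  have hCV : 1 ≤ C * V := by nlinarith
  -- the bound for one point
  have hone : ∀ i ∈ A, ((w i : ℝ) + C * V) ^ 2 ≤
      (1 + ε / 8) ^ 2 * (w i : ℝ) ^ 2 + (if i ∈ B then (1 + C) ^ 2 * (w i : ℝ) ^ 2 else 0) := by
    intro i hi
    rw [hA, Finset.mem_filter] at hi
    have hwi : V < w i := by
      rw [hV]; exact_mod_cast hi.2
    by_cases hb : i ∈ B
    · rw [if_pos hb]
      have h1 : (w i : ℝ) + C * V ≤ (1 + C) * w i := by
        have := mul_le_mul_of_nonneg_left hwi.le hC0.le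
        linarith
      have h2 : ((w i : ℝ) + C * V) ^ 2 ≤ ((1 + C) * w i) ^ 2 :=
        pow_le_pow_left₀ (by positivity) h1 2
      have h3 : 0 ≤ (1 + ε / 8) ^ 2 * (w i : ℝ) ^ 2 := by positivity
      rw [mul_pow] at h2
      linarith
    · rw [if_neg hb, add_zero]
      have h0 : ν (j + 1) < w i := by
        by_contra h
        push Not at h
        apply hb
        rw [hB, Finset.mem_filter]
        exact ⟨Finset.mem_univ _, hi.2, h⟩
      have h1 : (K0 : ℝ) * V < w i := by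
        have h2 : ν (j + 1) = K0 * ν j := by
          rw [hν]; simp only; ring
        rw [h2] at h0
        rw [hV]
        exact_mod_cast h0
      have h2 : C * V ≤ ε / 8 * w i := by
        have h3 : 8 * C * V ≤ K0 * ε * V := mul_le_mul_of_nonneg_right hK0 (by positivity)
        have h4 : (K0 * V) * ε ≤ w i * ε := mul_le_mul_of_nonneg_right h1.le hε.le
        nlinarith
      have h5 : (w i : ℝ) + C * V ≤ (1 + ε / 8) * w i := by linarith
      have h6 : ((w i : ℝ) + C * V) ^ 2 ≤ ((1 + ε / 8) * w i) ^ 2 :=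
        pow_le_pow_left₀ (by positivity) h5 2
      rw [mul_pow] at h6
      exact h6
  have hBA : B ⊆ A := by
    intro i hi
    rw [hB, Finset.mem_filter] at hi
    rw [hA, Finset.mem_filter]
    exact ⟨hi.1, hi.2.1⟩
  have hAsum : ∑ i ∈ A, (w i : ℝ) ^ 2 ≤ (1 - ε) * (d : ℝ) ^ 2 := by
    refine le_trans ?_ hsum
    apply Finset.sum_le_sum_of_subset_of_nonneg
    · intro i hi
      rw [hA, Finset.mem_filter] at hi
      rw [Finset.mem_filter]
      refine ⟨hi.1, ?_⟩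
      have h1 : ν 0 ≤ ν j := hνm (Nat.zero_le _)
      have h2 : ν 0 = ν0 := by rw [hν]; simp
      have h3 : (ν0 : ℝ) < w i := by exact_mod_cast (by omega : ν0 < w i)
      linarith
    · intro i _ _
      positivity
  have htot : ∑ i ∈ A, ((w i : ℝ) + C * V) ^ 2 ≤ (1 - ε / 2) * (d : ℝ) ^ 2 := by
    have h1 := Finset.sum_le_sum hone
    rw [Finset.sum_add_distrib, ← Finset.mul_sum, Finset.sum_ite_mem,
      Finset.inter_eq_right.mpr hBA, ← Finset.mul_sum] at h1
    have h2 : (1 + ε / 8) ^ 2 * ∑ i ∈ A, (w i : ℝ) ^ 2 ≤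
        (1 + ε / 8) ^ 2 * ((1 - ε) * (d : ℝ) ^ 2) := mul_le_mul_of_nonneg_left hAsum (by positivity)
    have h3 : (1 + C) ^ 2 * ∑ i ∈ B, (w i : ℝ) ^ 2 ≤ (1 + C) ^ 2 * ((d : ℝ) ^ 2 / J) :=
      mul_le_mul_of_nonneg_left hband (by positivity)
    have hJ0 : (0 : ℝ) < J := by exact_mod_cast hJ1
    have h4 : (1 + C) ^ 2 * ((d : ℝ) ^ 2 / J) ≤ ε / 8 * (d : ℝ) ^ 2 := by
      have h5 : (1 + C) ^ 2 / J ≤ ε / 8 := by
        rw [div_le_iff₀ hJ0]
        linarith
      have h6 := mul_le_mul_of_nonneg_right h5 (by positivity : 0 ≤ (d : ℝ) ^ 2)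
      have h7 : (1 + C) ^ 2 * ((d : ℝ) ^ 2 / J) = (1 + C) ^ 2 / J * (d : ℝ) ^ 2 := by ring
      rw [h7]
      exact h6
    have h8 : (1 + ε / 8) ^ 2 * (1 - ε) ≤ 1 - 5 * ε / 8 := by
      have e1 : (1 + ε / 8) ^ 2 * (1 - ε) =
          1 - 3 * ε / 4 - ε ^ 2 * (15 / 64) - ε ^ 3 / 64 := by ring
      rw [e1]
      have : 0 ≤ ε ^ 2 := by positivity
      have : 0 ≤ ε ^ 3 := by positivity
      linarith
    have h9 := mul_le_mul_of_nonneg_right h8 (by positivity : 0 ≤ (d : ℝ) ^ 2)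
    have h10 : (1 + ε / 8) ^ 2 * ((1 - ε) * (d : ℝ) ^ 2) =
        (1 + ε / 8) ^ 2 * (1 - ε) * (d : ℝ) ^ 2 := by ring
    nlinarith
  have hww : ∑ i ∈ A, (w i : ℝ) * (w i + 1) ≤ (1 - ε / 2) * (d : ℝ) ^ 2 := by
    refine le_trans (Finset.sum_le_sum ?_) htot
    intro i _
    have h1 : (0 : ℝ) ≤ w i := Nat.cast_nonneg _
    have h2 : (w i : ℝ) * 1 ≤ w i * (2 * (C * V)) := mul_le_mul_of_nonneg_left (by linarith) h1
    nlinarith [sq_nonneg (C * V)]
  refine ⟨A, ε / 2, ⌊a ^ 2 * d⌋₊, ν j, ((univ \ A).image w).card, by positivity, by linarith, hν1,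
    hd1, ?_, ?_, le_rfl, ?_, hww, Or.inr ?_⟩
  · intro i _
    exact Nat.le_floor (hw i)
  · intro i hi
    by_contra h
    apply hi
    rw [hA, Finset.mem_filter]
    exact ⟨Finset.mem_univ _, by omega⟩
  · have h1 : ∑ i ∈ A, ((w i : ℝ) + 2 ^ 17 * (V + 1) / (ε / 2)) ^ 2 ≤
        ∑ i ∈ A, ((w i : ℝ) + C * V) ^ 2 := by
      apply Finset.sum_le_sum
      intro i _
      apply pow_le_pow_left₀ (by positivity)
      linarith
    have h2 : ((⌊a ^ 2 * (d : ℝ)⌋₊ : ℕ) : ℝ) ≤ a ^ 2 * d := Nat.floor_le (by positivity)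
    have h3 : (7 * ((⌊a ^ 2 * (d : ℝ)⌋₊ : ℕ) : ℝ) + 2 ^ 20 * (V + 1) / (ε / 2)) * d ≤
        (7 * (a ^ 2 * d) + 8 * (C * (a * T * d))) * d := by
      apply mul_le_mul_of_nonneg_right _ hd0.le
      have := mul_le_mul_of_nonneg_left hνd hC0.le
      linarith
    have h4 : (7 * (a ^ 2 * d) + 8 * (C * (a * T * d))) * d =
        (7 * a ^ 2 + 8 * (a * (C * T))) * (d : ℝ) ^ 2 := by ring
    have h5 : 7 * a ^ 2 + 8 * (a * (C * T)) ≤ ε / 4 := by
      have : a * (64 * (C * T)) = 64 * (a * (C * T)) := by ring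
      nlinarith
    have h6 := mul_le_mul_of_nonneg_right h5 (by positivity : 0 ≤ (d : ℝ) ^ 2)
    have h7 : 0 ≤ ε * (d : ℝ) ^ 2 := by positivity
    nlinarith
  · have hfin : (2 : ℝ) ^ 30 * ((((univ \ A).image w).card : ℝ) + 1) * V ^ 2 ≤
        ε / 2 * (d : ℝ) ^ 2 := by
      have hcompl : ∀ i ∈ univ \ A, w i ≤ ν j := by
        intro i hi
        rw [Finset.mem_sdiff] at hi
        by_contra h
        apply hi.2
        rw [hA, Finset.mem_filter]
        exact ⟨Finset.mem_univ _, by omega⟩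
      rcases hdich with h | h
      · have h1 : ((univ \ A).image w).card ≤ ν j + 1 := by
          have : (univ \ A).image w ⊆ range (ν j + 1) := by
            intro x hx
            rw [Finset.mem_image] at hx
            obtain ⟨i, hi, rfl⟩ := hx
            rw [Finset.mem_range]
            have := hcompl i hi
            omega
          have h2 := Finset.card_le_card this
          rwa [Finset.card_range] at h2
        have h2 : (((univ \ A).image w).card : ℝ) ≤ V + 1 := by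
          rw [hV]; exact_mod_cast h1
        have h3 : ((((univ \ A).image w).card : ℝ) + 1) * V ^ 2 ≤ 3 * T ^ 3 := by
          have h4 : ((((univ \ A).image w).card : ℝ) + 1) ≤ 3 * V := by linarith
          have h5 := mul_le_mul_of_nonneg_right h4 (by positivity : 0 ≤ V ^ 2)
          have h6 : V ^ 3 ≤ T ^ 3 := pow_le_pow_left₀ (by positivity) h 3
          nlinarith
        have h7 : 1 ≤ (a ^ 2 * (d : ℝ)) ^ 2 := one_le_pow₀ hcd
        have h8 : 3 * T ^ 3 * 1 ≤ 3 * T ^ 3 * (a ^ 2 * (d : ℝ)) ^ 2 :=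
          mul_le_mul_of_nonneg_left h7 (by positivity)
        have h9 : 2 ^ 30 * (3 * T ^ 3 * (a ^ 2 * (d : ℝ)) ^ 2) =
            (2 ^ 30 * 3 * (a ^ 4 * T ^ 3)) * (d : ℝ) ^ 2 := by ring
        have h10 : a ^ 4 ≤ a := by
          have : a ^ 4 ≤ a ^ 1 := pow_le_pow_of_le_one ha0.le ha1 (by norm_num)
          simpa using this
        have h11 : 2 ^ 30 * 3 * (a ^ 4 * T ^ 3) ≤ ε / 2 := by
          have h12 : a ^ 4 * T ^ 3 ≤ a * T ^ 3 := mul_le_mul_of_nonneg_right h10 (by positivity)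
          have h13 : a * (2 ^ 33 * T ^ 3) = 2 ^ 33 * (a * T ^ 3) := by ring
          nlinarith
        have h14 := mul_le_mul_of_nonneg_right h11 (by positivity : 0 ≤ (d : ℝ) ^ 2)
        nlinarith
      · have h1 : ((univ \ A).image w).card ≤ s := by
          refine le_trans (Finset.card_le_card ?_) hcard
          apply Finset.image_subset_image
          intro i hi
          rw [Finset.mem_filter]
          refine ⟨Finset.mem_univ _, ?_⟩
          have : (w i : ℝ) ≤ V := by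
            rw [hV]; exact_mod_cast hcompl i hi
          linarith
        have h2 : (((univ \ A).image w).card : ℝ) ≤ s := by exact_mod_cast h1
        have h3 : (1 : ℝ) ≤ s := by exact_mod_cast hs
        have h4 : V ^ 2 ≤ μ ^ 2 := pow_le_pow_left₀ (by positivity) h 2
        have h5 : ((((univ \ A).image w).card : ℝ) + 1) * V ^ 2 ≤ 2 * s * μ ^ 2 :=
          mul_le_mul (by linarith) h4 (by positivity) (by positivity)
        have h6 : 2 ^ 31 * a ^ 2 ≤ ε / 2 := by nlinarith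
        have h7 := mul_le_mul_of_nonneg_right h6 (by positivity : 0 ≤ (d : ℝ) ^ 2)
        nlinarith
    have hN : ((∑ i ∈ A, w i * (w i + 1) +
        2 ^ 30 * (((univ \ A).image w).card + 1) * ν j ^ 2 : ℕ) : ℝ) ≤
        (((d + 1) * (d + 2) : ℕ) : ℝ) := by
      push_cast
      nlinarith
    exact_mod_cast hN

theorem scale : S_Scale := by
  intro ε hε
  obtain ⟨c, hc, h⟩ := scale_le_one (min ε 1) (lt_min hε one_pos) (min_le_right _ _)
  refine ⟨c, hc, ?_⟩
  intro n d s μ w h1 h2 h3 h4 h5 h6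
  apply h w h1 h2 h3 h4 h5
  refine h6.trans ?_
  apply mul_le_mul_of_nonneg_right _ (by positivity)
  have := min_le_left ε 1
  linarith

end Pool.Agent.Q195.PK
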